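import Pool.Agent.Helper62.PM.St

/-! Module F of project PM: the limit of the second difference quotient for a smooth function. -/

set_option autoImplicit false

open MeasureTheory Metric Set Filter Topology
open scoped RealInnerProductSpace ContDiff

namespace Pool.Agent.Helper57.PM

open Pool.Agent.Helper62.PM
open Pool.Agent.Helper62.Mink

private lemma gam_ne {n : ℕ} {a b : E n} (h : ON (a, b)) (t : ℝ) :
    Real.cos t • a + Real.sin t • b ≠ 0 := by
  obtain ⟨h1, h2, h3⟩ := h
  simp only at h1 h2 h3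
  intro h0
  have h3' : (inner ℝ b a : ℝ) = 0 := by rw [real_inner_comm]; exact h3
  have ha : (inner ℝ a (Real.cos t • a + Real.sin t • b) : ℝ) = Real.cos t := by
    rw [inner_add_right, real_inner_smul_right, real_inner_smul_right, h3,
      real_inner_self_eq_norm_sq, h1]
    ring
  have hb : (inner ℝ b (Real.cos t • a + Real.sin t • b) : ℝ) = Real.sin t := by
    rw [inner_add_right, real_inner_smul_right, real_inner_smul_right, h3',
      real_inner_self_eq_norm_sq, h2]
    ring
  rw [h0, inner_zero_right] at ha hb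
  have := Real.sin_sq_add_cos_sq t
  rw [← ha, ← hb] at this
  norm_num at this

private lemma gam_deriv {n : ℕ} (a b : E n) (t : ℝ) :
    HasDerivAt (fun t : ℝ => Real.cos t • a + Real.sin t • b)
      (-Real.sin t • a + Real.cos t • b) t :=
  ((Real.hasDerivAt_cos t).smul_const a).add ((Real.hasDerivAt_sin t).smul_const b)

private lemma g_deriv {n : ℕ} {a b : E n} {f : E n → ℝ} (h : ON (a, b))
    (hf : ContDiffOn ℝ ∞ f {0}ᶜ) (t : ℝ) :
    HasDerivAt (fun t : ℝ => f (Real.cos t • a + Real.sin t • b))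
      (-Real.sin t * fderiv ℝ f (Real.cos t • a + Real.sin t • b) a +
        Real.cos t * fderiv ℝ f (Real.cos t • a + Real.sin t • b) b) t := by
  have h1 := (cda hf (gam_ne h t)).differentiableAt (by simp)
  have h2 := h1.hasFDerivAt.comp_hasDerivAt t (gam_deriv a b t)
  simp only [map_add, map_smul, smul_eq_mul] at h2
  exact h2

private lemma euler1 {n : ℕ} {φ : E n → ℝ} (hφ : S1 φ) {a : E n} (ha : a ≠ 0) :
    fderiv ℝ φ a a = φ a := by
  have hd : DifferentiableAt ℝ φ a := (cda hφ.smooth ha).differentiableAt (by simp)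
  have h1 : HasDerivAt (fun τ : ℝ => φ (a + τ • a)) (fderiv ℝ φ a a) 0 :=
    hd.hasFDerivAt.hasLineDerivAt a
  have h2 : HasDerivAt (fun τ : ℝ => φ (a + τ • a)) (φ a) 0 := by
    have h3 : HasDerivAt (fun τ : ℝ => (1 + τ) * φ a) (1 * φ a) 0 :=
      ((hasDerivAt_id (0 : ℝ)).const_add 1).mul_const (φ a)
    rw [one_mul] at h3
    refine h3.congr_of_eventuallyEq ?_
    filter_upwards [lt_mem_nhds (show (-1 : ℝ) < 0 by norm_num)] with τ hτ
    have : a + τ • a = (1 + τ) • a := by rw [add_smul, one_smul]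
    rw [this, hφ.hom _ (by linarith)]
  exact h1.unique h2

theorem hF : StB → StF := by
  intro hB n φ a b hab hφ
  have hne := gam_ne hab
  have c1 : ∀ e : E n, ContDiffOn ℝ ∞ (fun y => fderiv ℝ φ y e) {0}ᶜ := fun e y hy =>
    (cda1 hφ.smooth e hy).contDiffWithinAt
  have c2 : ∀ e f : E n, ContDiffOn ℝ ∞ (fun z => fderiv ℝ (fun y => fderiv ℝ φ y e) z f) {0}ᶜ :=
    fun e f y hy => (cda1 (c1 e) f hy).contDiffWithinAt
  have hγc : Continuous (fun t : ℝ => Real.cos t • a + Real.sin t • b) := by fun_prop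
  have cc : ∀ f : E n → ℝ, ContDiffOn ℝ ∞ f {0}ᶜ →
      Continuous (fun t : ℝ => f (Real.cos t • a + Real.sin t • b)) := by
    intro f hf
    exact hf.continuousOn.comp_continuous hγc (fun t => hne t)
  -- the functions
  let u1 : ℝ → Unit → ℝ := fun t _ =>
    -Real.sin t * fderiv ℝ φ (Real.cos t • a + Real.sin t • b) a +
      Real.cos t * fderiv ℝ φ (Real.cos t • a + Real.sin t • b) b
  let A : ℝ → ℝ := fun t =>
    -Real.sin t * fderiv ℝ (fun y => fderiv ℝ φ y a) (Real.cos t • a + Real.sin t • b) a +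
      Real.cos t * fderiv ℝ (fun y => fderiv ℝ φ y a) (Real.cos t • a + Real.sin t • b) b
  let B : ℝ → ℝ := fun t =>
    -Real.sin t * fderiv ℝ (fun y => fderiv ℝ φ y b) (Real.cos t • a + Real.sin t • b) a +
      Real.cos t * fderiv ℝ (fun y => fderiv ℝ φ y b) (Real.cos t • a + Real.sin t • b) b
  let u2 : ℝ → Unit → ℝ := fun t _ =>
    (-Real.cos t * fderiv ℝ φ (Real.cos t • a + Real.sin t • b) a + -Real.sin t * A t) +
      (-Real.sin t * fderiv ℝ φ (Real.cos t • a + Real.sin t • b) b + Real.cos t * B t)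
  have hu1 : ∀ (t : ℝ) (x : Unit),
      HasDerivAt (fun t => (fun (t : ℝ) (_ : Unit) => φ (Real.cos t • a + Real.sin t • b)) t x)
        (u1 t x) t := by
    intro t x
    exact g_deriv hab hφ.smooth t
  have hu2 : ∀ (t : ℝ) (x : Unit), HasDerivAt (fun t => u1 t x) (u2 t x) t := by
    intro t x
    have e1 : HasDerivAt (fun t : ℝ => -Real.sin t) (-Real.cos t) t := (Real.hasDerivAt_sin t).neg
    have e2 := g_deriv hab (c1 a) t
    have e3 := g_deriv hab (c1 b) t
    exact (e1.mul e2).add ((Real.hasDerivAt_cos t).mul e3)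
  have hA : Continuous A := by
    have r1 := cc _ (c2 a a)
    have r2 := cc _ (c2 a b)
    exact (Real.continuous_sin.neg.mul r1).add (Real.continuous_cos.mul r2)
  have hB' : Continuous B := by
    have r1 := cc _ (c2 b a)
    have r2 := cc _ (c2 b b)
    exact (Real.continuous_sin.neg.mul r1).add (Real.continuous_cos.mul r2)
  have hu2c : Continuous (fun q : ℝ × Unit => u2 q.1 q.2) := by
    have r1 := cc _ (c1 a)
    have r2 := cc _ (c1 b)
    have r3 : Continuous (fun t : ℝ =>
        (-Real.cos t * fderiv ℝ φ (Real.cos t • a + Real.sin t • b) a + -Real.sin t * A t) +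
        (-Real.sin t * fderiv ℝ φ (Real.cos t • a + Real.sin t • b) b + Real.cos t * B t)) :=
      ((Real.continuous_cos.neg.mul r1).add (Real.continuous_sin.neg.mul hA)).add
        ((Real.continuous_sin.neg.mul r2).add (Real.continuous_cos.mul hB'))
    exact r3.comp continuous_fst
  have key := hB Unit (fun (t : ℝ) (_ : Unit) => φ (Real.cos t • a + Real.sin t • b)) u1 u2
    hu1 hu2 hu2c continuous_const
  have ha0 : a ≠ 0 := by
    have := hne 0
    simpa using this
  have hval : u2 0 () + φ (Real.cos 0 • a + Real.sin 0 • b) = D2 φ b a := by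
    simp only [u2, A, B, Real.cos_zero, Real.sin_zero, one_smul, zero_smul, add_zero, neg_zero,
      zero_mul, one_mul, zero_add, neg_mul]
    rw [euler1 hφ ha0]
    unfold D2
    ring
  rw [Metric.tendsto_nhdsWithin_nhds]
  intro ε hε
  obtain ⟨δ, hδ, hs⟩ := key (ε / 2) (by positivity)
  refine ⟨δ, hδ, fun s hs0 hsd => ?_⟩
  have hs0' : 0 < s := hs0
  have hsd' : s < δ := by
    rw [Real.dist_eq, sub_zero, abs_of_pos hs0'] at hsd
    exact hsd
  have h1 := hs s hs0' hsd' ()
  rw [Real.dist_eq]
  have e1 : Real.cos (-s) • a + Real.sin (-s) • b = Real.cos s • a - Real.sin s • b := by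
    rw [Real.cos_neg, Real.sin_neg, neg_smul, sub_eq_add_neg]
  have e2 : Real.cos 0 • a + Real.sin 0 • b = a := by simp
  simp only [e1] at h1
  rw [hval, e2] at h1
  linarith

end Pool.Agent.Helper57.PM
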